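import Pool.Agent.H13.LN.Targets

/-! Row BRL of the board lnt_modules: lifting of homomorphisms on the filtered group of knots. -/

set_option autoImplicit false

open Finset Pool.Agent.H59.LIN Pool.Agent.H13.LN

namespace Pool.Agent.H78.LNT

theorem Fil_anti (d : ℕ) : Fil (d + 1) ≤ Fil d := by
  unfold Fil
  apply AddSubgroup.closure_mono
  apply Set.union_subset_union_right
  rintro x ⟨n, w, h1, h2, h3⟩
  exact ⟨n, w, h1, by omega, h3⟩

theorem kn_of {n : ℕ} {w : Wd n} (h : Knot w) :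
    kn n w = Finsupp.single (⟨n, w, h⟩ : KW) 1 := by
  unfold kn
  rw [dif_pos h]

theorem brl (hLFT : T_LFT) (hVFC : T_VFC) : T_BRL := by
  intro p hp a d f ha
  have hne : NeZero (p ^ a) := ⟨pow_ne_zero _ hp.ne_zero⟩
  obtain ⟨π, hπ⟩ : ∃ π : (KW →₀ ℤ) ⧸ Fil (d + 1) →+ (KW →₀ ℤ) ⧸ Fil d,
      ∀ x : KW →₀ ℤ, π (QuotientAddGroup.mk x) = QuotientAddGroup.mk x :=
    ⟨QuotientAddGroup.map (Fil (d + 1)) (Fil d) (AddMonoidHom.id _) (Fil_anti d), fun x => rfl⟩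
  obtain ⟨h1, h2, -⟩ := (hVFC d (ZMod (p ^ a))).2 (f.comp π)
  obtain ⟨s, hs⟩ : ∃ s : ZMod (p ^ a) → ZMod (p ^ (a + 1)), ∀ x,
      ZMod.castHom (pow_dvd_pow p (Nat.le_succ a)) (ZMod (p ^ a)) (s x) = x := by
    refine ⟨fun x => ((x.val : ℕ) : ZMod (p ^ (a + 1))), fun x => ?_⟩
    rw [map_natCast, ZMod.natCast_zmod_val]
  obtain ⟨M, hM⟩ := hLFT p a d _ hp h2 s
  obtain ⟨φ, hφ, -⟩ := (hVFC M (ZMod (p ^ (a + 1)))).1
    (fun n w => s ((f.comp π) (QuotientAddGroup.mk (kn n w)))) (by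
      intro x y hxy hx
      exact congrArg s (h1 x y hxy hx)) hM
  refine ⟨M + 1, φ, fun x => ?_⟩
  have key : ((ZMod.castHom (pow_dvd_pow p (Nat.le_succ a)) (ZMod (p ^ a))).toAddMonoidHom.comp
      (φ.comp (QuotientAddGroup.mk' (Fil (M + 1))))) =
      f.comp (QuotientAddGroup.mk' (Fil d)) := by
    apply Finsupp.addHom_ext'
    rintro ⟨n, w, h⟩
    apply AddMonoidHom.ext_int
    show ZMod.castHom (pow_dvd_pow p (Nat.le_succ a)) (ZMod (p ^ a))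
        (φ (QuotientAddGroup.mk (Finsupp.single (⟨n, w, h⟩ : KW) 1))) =
      f (QuotientAddGroup.mk (Finsupp.single (⟨n, w, h⟩ : KW) 1))
    rw [← kn_of h, hφ n w h, hs, AddMonoidHom.comp_apply, hπ]
  exact DFunLike.congr_fun key x

end Pool.Agent.H78.LNT
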