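import Pool.Agent.H13.LN.Targets

/-! Row SPL of the board lnt_modules: splitting a block. -/

set_option autoImplicit false

open Finset Pool.Agent.H59.LIN Pool.Agent.H13.LN

namespace Pool.Agent.H78.LNT

theorem count_shift (κ k : ℕ) (X : List ℕ) :
    ((X.filter (κ ≤ ·)).map (· - κ)).count k = X.count (k + κ) := by
  induction X with
  | nil => simp
  | cons x X ih =>
    by_cases h : κ ≤ x
    · rw [List.filter_cons_of_pos (by simpa using h), List.map_cons, List.count_cons,
        List.count_cons, ih]
      congr 1
      have : ((x - κ == k) = true) ↔ ((x == k + κ) = true) := by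
        rw [beq_iff_eq, beq_iff_eq]
        omega
      simp only [this]
    · rw [List.filter_cons_of_neg (by simpa using h), List.count_cons, ih]
      have : ¬ ((x == k + κ) = true) := by
        rw [beq_iff_eq]
        omega
      rw [if_neg this, add_zero]

theorem count_shift' (κ m k : ℕ) (X : List ℕ) :
    ((X.filter (· < κ)).map (· + m)).count k =
      if m ≤ k ∧ k - m < κ then X.count (k - m) else 0 := by
  induction X with
  | nil => simp
  | cons x X ih =>
    by_cases h : x < κ
    · rw [List.filter_cons_of_pos (by simpa using h), List.map_cons, List.count_cons,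
        List.count_cons, ih]
      by_cases h1 : m ≤ k ∧ k - m < κ
      · rw [if_pos h1, if_pos h1]
        congr 1
        have : ((x + m == k) = true) ↔ ((x == k - m) = true) := by
          rw [beq_iff_eq, beq_iff_eq]
          omega
        simp only [this]
      · rw [if_neg h1, if_neg h1]
        have : ¬ ((x + m == k) = true) := by
          rw [beq_iff_eq]
          omega
        rw [if_neg this, add_zero]
    · rw [List.filter_cons_of_neg (by simpa using h), List.count_cons, ih]
      by_cases h1 : m ≤ k ∧ k - m < κ
      · rw [if_pos h1, if_pos h1]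
        have : ¬ ((x == k - m) = true) := by
          rw [beq_iff_eq]
          omega
        rw [if_neg this, add_zero]
      · rw [if_neg h1, if_neg h1]

/-- the function of `Rk` -/
def ff (d κ : ℕ) (b b' : List ℕ) : List ℕ :=
  (b.filter (κ ≤ ·)).map (· - κ) ++ (b'.filter (· < κ)).map (· + (d - κ))

theorem Rk_cons (d κ : ℕ) (b : List ℕ) (L : List (List ℕ)) :
    Rk d κ (b :: L) = List.zipWith (ff d κ) (b :: L) (L ++ [b]) := by
  unfold Rk
  rw [List.rotate_cons_succ, List.rotate_zero]
  rfl

theorem count_zip (d κ k : ℕ) : ∀ (L L' : List (List ℕ)), L.length = L'.length →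
    ((List.zipWith (ff d κ) L L').flatten).count k =
      L.flatten.count (k + κ) +
        if d - κ ≤ k ∧ k - (d - κ) < κ then L'.flatten.count (k - (d - κ)) else 0
  | [], [], _ => by simp
  | b :: L, b' :: L', h => by
    rw [List.zipWith_cons_cons, List.flatten_cons, List.count_append,
      count_zip d κ k L L' (by simpa using h), List.flatten_cons, List.flatten_cons,
      List.count_append]
    unfold ff
    rw [List.count_append, count_shift, count_shift']
    split_ifs with h1
    · rw [List.count_append]; ring
    · ring

theorem VL_lt {d : ℕ} {L : List (List ℕ)} (h : VL d L) {b : List ℕ} (hb : b ∈ L) {x : ℕ}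
    (hx : x ∈ b) : x < d := by
  by_contra hcon
  have h1 := h.cnt x
  rw [if_neg hcon, List.count_eq_zero] at h1
  exact h1 (List.mem_flatten.2 ⟨b, hb, hx⟩)

theorem VL_Rk {d κ : ℕ} {b : List ℕ} {L : List (List ℕ)} (h : VL d (b :: L)) (hκ : κ ≤ d) :
    VL d (Rk d κ (b :: L)) := by
  refine ⟨?_, ?_, ?_⟩
  · rw [Rk_cons]
    cases L with
    | nil => simp
    | cons c L => simp
  · intro c hc
    rw [Rk_cons, ← List.map_uncurry_zip_eq_zipWith] at hc
    obtain ⟨⟨a, a'⟩, hz, rfl⟩ := List.mem_map.1 hc
    obtain ⟨ha, ha'⟩ := List.of_mem_zip hz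
    have ha'2 : a' ∈ b :: L := by
      rw [List.mem_append, List.mem_singleton] at ha'
      rw [List.mem_cons]
      tauto
    show (ff d κ a a').Pairwise (· < ·)
    unfold ff
    rw [List.pairwise_append]
    refine ⟨?_, ?_, ?_⟩
    · rw [List.pairwise_map]
      refine ((h.inc a ha).filter _).imp_of_mem ?_
      intro x y hx hy hxy
      have h1 := (List.mem_filter.1 hx).2
      simp only [decide_eq_true_eq] at h1
      omega
    · rw [List.pairwise_map]
      refine ((h.inc a' ha'2).filter _).imp ?_
      intro x y hxy
      omega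
    · intro x hx y hy
      obtain ⟨x', hx', rfl⟩ := List.mem_map.1 hx
      obtain ⟨y', hy', rfl⟩ := List.mem_map.1 hy
      have h1 := (List.mem_filter.1 hx').2
      simp only [decide_eq_true_eq] at h1
      have h2 := VL_lt h ha (List.mem_filter.1 hx').1
      omega
  · intro k
    rw [Rk_cons, count_zip d κ k _ _ (by simp)]
    have h1 : ∀ j, ((L ++ [b]).flatten).count j = ((b :: L).flatten).count j := by
      intro j
      rw [List.flatten_append, List.count_append, List.flatten_cons, List.flatten_cons,
        List.count_append, List.count_append, List.flatten_nil, List.count_nil, add_zero, add_comm]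
    rw [h1, h.cnt, h.cnt]
    split_ifs <;> omega

theorem zip_last {α : Type} (f : α → α → α) (u w : α) (h : ∀ c, f c u = f c w) :
    ∀ (M : List α) (b : α), List.zipWith f (b :: M) (M ++ [u]) = List.zipWith f (b :: M) (M ++ [w])
  | [], b => by simp [h]
  | c :: M, b => by
    rw [List.cons_append, List.cons_append, List.zipWith_cons_cons, List.zipWith_cons_cons,
      zip_last f u w h M c]

theorem spl : T_SPL := by
  intro B _ d H hH u v L hV
  have hinc := hV.inc (u ++ v) List.mem_cons_self
  rw [List.pairwise_append] at hinc
  obtain ⟨hu, hv, huv⟩ := hinc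
  have hlt : ∀ x ∈ u ++ v, x < d := fun x hx => VL_lt hV List.mem_cons_self hx
  obtain ⟨κ, hκ, hκu, hκv⟩ : ∃ κ, κ ≤ d ∧ (∀ x ∈ u, x < κ) ∧ ∀ x ∈ v, κ ≤ x := by
    cases v with
    | nil => exact ⟨d, le_rfl, fun x hx => hlt x (by simpa using hx), by simp⟩
    | cons a v =>
      refine ⟨a, (hlt a (by simp)).le, fun x hx => huv x hx a (by simp), ?_⟩
      intro x hx
      rcases List.mem_cons.1 hx with rfl | hx'
      · exact le_rfl
      · exact ((List.pairwise_cons.1 hv).1 x hx').le
  have hV2 : VL d (u :: v :: L) := by
    refine ⟨by simp, ?_, ?_⟩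
    · intro b hb
      rcases List.mem_cons.1 hb with rfl | hb
      · exact hu
      · rcases List.mem_cons.1 hb with rfl | hb
        · exact hv
        · exact hV.inc b (List.mem_cons_of_mem _ hb)
    · intro k
      rw [← hV.cnt k, List.flatten_cons, List.flatten_cons, List.flatten_cons, List.append_assoc]
  have fu : u.filter (κ ≤ ·) = [] := by
    rw [List.filter_eq_nil_iff]
    intro x hx
    have := hκu x hx
    simp only [decide_eq_true_eq]
    omega
  have fv : v.filter (· < κ) = [] := by
    rw [List.filter_eq_nil_iff]
    intro x hx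
    have := hκv x hx
    simp only [decide_eq_true_eq]
    omega
  have e1 : ∀ c, ff d κ c u = ff d κ c (u ++ v) := by
    intro c
    unfold ff
    rw [List.filter_append, fv, List.append_nil]
  have e2 : ∀ c, ff d κ v c = ff d κ (u ++ v) c := by
    intro c
    unfold ff
    rw [List.filter_append, fu, List.nil_append]
  have e3 : Rk d κ (u :: v :: L) = [] :: Rk d κ ((u ++ v) :: L) := by
    rw [Rk_cons, Rk_cons, List.cons_append, List.zipWith_cons_cons]
    have h1 : ff d κ u v = [] := by
      unfold ff
      rw [fu, fv]
      rfl
    rw [h1, zip_last (ff d κ) u (u ++ v) e1]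
    congr 1
    cases L with
    | nil => rw [List.nil_append, List.zipWith_cons_cons, List.zipWith_cons_cons, e2]
    | cons c L => rw [List.cons_append, List.zipWith_cons_cons, List.zipWith_cons_cons, e2]
  rw [← hH.rk κ _ hV2 hκ, e3, hH.emp _ (VL_Rk hV hκ), hH.rk κ _ hV hκ]

end Pool.Agent.H78.LNT
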